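import Pool.Agent.R545.Stc.TwDefs

/-!
# Path decompositions from linear orders
-/

namespace Pool.Agent.R545.Stc

open SimpleGraph

theorem pathGraph_reach_of_le {n : ℕ} (S : Set (Fin n)) (hS : S.OrdConnected) :
    ∀ (d : ℕ) (a b : S), (a.1 : ℕ) + d = b.1 → ((pathGraph n).induce S).Reachable a b := by
  intro d
  induction d with
  | zero =>
    intro a b h
    have : a = b := Subtype.ext (Fin.ext (by simpa using h))
    rw [this]
  | succ d ih =>
    intro a b h
    have hc : (a.1 : ℕ) + d < n := by have := b.1.2; omega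
    have hcS : (⟨(a.1 : ℕ) + d, hc⟩ : Fin n) ∈ S := by
      refine hS.out a.2 b.2 ⟨?_, ?_⟩
      · rw [Fin.le_def]; simp
      · rw [Fin.le_def]; simp; omega
    refine (ih a ⟨_, hcS⟩ rfl).trans (SimpleGraph.Adj.reachable ?_)
    rw [comap_adj]
    change (pathGraph n).Adj (⟨(a.1 : ℕ) + d, hc⟩ : Fin n) b.1
    rw [pathGraph_adj]
    left
    simp
    omega

theorem induce_pathGraph_connected {n : ℕ} (S : Set (Fin n)) (hS : S.OrdConnected)
    (hne : S.Nonempty) : ((pathGraph n).induce S).Connected := by
  obtain ⟨x, hx⟩ := hne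
  have : Nonempty S := ⟨⟨x, hx⟩⟩
  refine { preconnected := ?_ }
  intro a b
  rcases le_total (a.1 : ℕ) (b.1 : ℕ) with h | h
  · exact pathGraph_reach_of_le S hS (b.1 - a.1) a b (by omega)
  · exact (pathGraph_reach_of_le S hS (a.1 - b.1) b a (by omega)).symm

theorem pathGraph_isTree (n : ℕ) : (pathGraph (n + 1)).IsTree := by
  refine { preconnected := (pathGraph_connected n).preconnected, nonempty := inferInstance, isAcyclic := ?_ }
  rw [isAcyclic_iff_forall_adj_isBridge]
  have key : ∀ v w : Fin (n + 1), (v : ℕ) + 1 = w → (pathGraph (n + 1)).IsBridge s(v, w) := by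
    intro v w h
    rw [isBridge_iff]
    intro hr
    have hmem : ∀ x y : Fin (n + 1), ((pathGraph (n + 1)).deleteEdges {s(v, w)}).Reachable x y →
        ((x : ℕ) ≤ v ↔ (y : ℕ) ≤ v) := by
      intro x y hxy
      obtain ⟨p⟩ := hxy
      induction p with
      | nil => rfl
      | @cons x' y' _ hadj _ ih =>
        refine Iff.trans ?_ ih
        rw [deleteEdges_adj, pathGraph_adj] at hadj
        obtain ⟨h1, h2⟩ := hadj
        rw [Set.mem_singleton_iff] at h2
        constructor
        · intro h3
          by_contra h4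
          apply h2
          have e1 : x' = v := Fin.ext (by omega)
          have e2 : y' = w := Fin.ext (by omega)
          rw [e1, e2]
        · intro h3
          by_contra h4
          apply h2
          have e1 : x' = w := Fin.ext (by omega)
          have e2 : y' = v := Fin.ext (by omega)
          rw [e1, e2, Sym2.eq_swap]
    have := hmem v w hr
    omega
  intro v w hvw
  rw [pathGraph_adj] at hvw
  rcases hvw with h | h
  · exact key v w h
  · rw [Sym2.eq_swap]
    exact key w v h

theorem PathwidthLe.treewidthLe {V : Type} {G : SimpleGraph V} {w : ℕ} (h : PathwidthLe G w) :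
    TreewidthLe G w := by
  obtain ⟨m, B, h1, h2⟩ := h
  exact ⟨m, _, B, h1, h2⟩

theorem treewidth_le_of {V : Type} {G : SimpleGraph V} {w : ℕ} (h : TreewidthLe G w) :
    treewidth G ≤ w := Nat.sInf_le h

theorem pathwidth_le_of {V : Type} {G : SimpleGraph V} {w : ℕ} (h : PathwidthLe G w) :
    pathwidth G ≤ w := Nat.sInf_le h

/-- A path decomposition from a column function. Each vertex `v` has a place `col v`, and a
vertex is `long` if it is in all the bags whose places lie between `col v` and `hi v`. -/
theorem pathwidthLe_of_col {n : ℕ} (hn : 0 < n) (G : SimpleGraph (Fin n)) (w : ℕ)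
    (long : Fin n → Prop) (col hi : Fin n → ℕ) (hcol : ∀ v, col v ≤ hi v)
    (hedge : ∀ u v, G.Adj u v → (long u ∧ col u ≤ col v ∧ col v ≤ hi u) ∨
      (long v ∧ col v ≤ col u ∧ col u ≤ hi v))
    (hw : ∀ c, {v | long v ∧ col v ≤ c ∧ c ≤ hi v}.ncard ≤ w) : PathwidthLe G w := by
  classical
  obtain ⟨n, rfl⟩ : ∃ m, n = m + 1 := ⟨n - 1, by omega⟩
  let σ := Tuple.sort col
  have hmono : Monotone (col ∘ σ) := Tuple.monotone_sort col
  let A : ℕ → Finset (Fin (n + 1)) := fun c =>
    Finset.univ.filter (fun v => long v ∧ col v ≤ c ∧ c ≤ hi v)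
  let B : Fin (n + 1) → Finset (Fin (n + 1)) := fun i => insert (σ i) (A (col (σ i)))
  have hB : ∀ v i, v ∈ B i ↔ v = σ i ∨ (long v ∧ col v ≤ col (σ i) ∧ col (σ i) ≤ hi v) := by
    intro v i
    simp [B, A]
  refine ⟨n + 1, B, ⟨pathGraph_isTree n, ?_, ?_, ?_⟩, ?_⟩
  · intro v
    refine ⟨σ.symm v, ?_⟩
    rw [hB]
    left
    simp
  · intro u v h
    rcases hedge u v h with ⟨h1, h2, h3⟩ | ⟨h1, h2, h3⟩
    · refine ⟨σ.symm v, ?_, ?_⟩
      · rw [hB]
        right
        simpa using ⟨h1, h2, h3⟩
      · rw [hB]
        left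
        simp
    · refine ⟨σ.symm u, ?_, ?_⟩
      · rw [hB]
        left
        simp
      · rw [hB]
        right
        simpa using ⟨h1, h2, h3⟩
  · intro v
    apply induce_pathGraph_connected
    · by_cases hl : long v
      · constructor
        intro i hi' j hj k hk
        simp only [Set.mem_ofPred_eq, hB] at hi' hj ⊢
        have h1 : col v ≤ col (σ i) := by
          rcases hi' with h | h
          · rw [h]
          · exact h.2.1
        have h2 : col (σ j) ≤ hi v := by
          rcases hj with h | h
          · rw [← h]; exact hcol v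
          · exact h.2.2
        right
        exact ⟨hl, h1.trans (hmono hk.1), (hmono hk.2).trans h2⟩
      · constructor
        intro i hi' j hj k hk
        simp only [Set.mem_ofPred_eq, hB, hl, false_and, or_false] at hi' hj ⊢
        have : i = j := σ.injective (hi'.symm.trans hj)
        subst this
        have : k = i := le_antisymm hk.2 hk.1
        rw [this]
        exact hi'
    · refine ⟨σ.symm v, ?_⟩
      simp only [Set.mem_ofPred_eq, hB]
      left
      simp
  · intro i
    refine (Finset.card_insert_le _ _).trans (Nat.add_le_add_right ?_ 1)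
    have := hw (col (σ i))
    rw [Set.ncard_eq_toFinset_card'] at this
    refine le_trans (le_of_eq ?_) this
    congr 1
    ext v
    simp [A]

end Pool.Agent.R545.Stc
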