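import Pool.Agent.H820R2.SC.Asm
import Pool.Agent.R545.Stc.PwLemmas

/-!
# The graphs of the reduction have small pathwidth
-/

namespace Pool.Agent.R545.Stc

open Finset Pool.Agent.H820R2.SC

/-- First column of a vertex of the gadget. -/
def lo (P : Par) : GX → ℕ
  | .q j c => if j = 0 ∨ j = P.R then 0 else c
  | .u _ c => c
  | .z _ c => c
  | .l _ c => c
  | .zr _ => 0
  | .o _ => 0

/-- Last column of a vertex of the gadget. -/
def hiX (P : Par) : GX → ℕ
  | .q j c => if j = 0 ∨ j = P.R then P.m else c + 1
  | .u _ c => c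
  | .z _ c => c
  | .l _ c => c
  | .zr _ => P.m
  | .o _ => P.m

/-- Column of a bundle. -/
def colB (P : Par) : GB → ℕ
  | .uR _ c => c
  | .uL _ c => c
  | .lR _ c => c
  | .lL _ c => c
  | .uz _ c => c
  | .zl _ c => c
  | .qz _ => P.m
  | .zo _ => 0
  | .ch _ => 0

theorem lo_le_hiX (P : Par) (x : GX) : lo P x ≤ hiX P x := by
  cases x <;> simp only [lo, hiX] <;> first | (split_ifs <;> omega) | omega

theorem Q_col (P : Par) (j c c' : ℕ) (h1 : c' ≤ P.m) (h2 : c ≤ c') (h3 : c' ≤ c + 1) :
    lo P (P.Q j c) ≤ c' ∧ c' ≤ hiX P (P.Q j c) := by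
  unfold Par.Q
  split_ifs with h
  · simp only [lo, hiX, if_pos h]
    exact ⟨Nat.zero_le _, h1⟩
  · simp only [lo, hiX, if_neg h]
    exact ⟨h2, h3⟩

theorem ends_col (P : Par) {b : GB} (hb : P.BV b) {x : GX} (hx : x = P.bp b ∨ x = P.bq b) :
    lo P x ≤ colB P b ∧ colB P b ≤ hiX P x := by
  cases b with
  | uR i c =>
    simp only [Par.BV] at hb
    rcases hx with rfl | rfl
    · exact Q_col P i c c hb.2 le_rfl (by omega)
    · simp [Par.bq, lo, hiX, colB]
  | uL i c =>
    simp only [Par.BV] at hb
    rcases hx with rfl | rfl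
    · exact Q_col P i (c - 1) c hb.2 (by omega) (by omega)
    · simp [Par.bq, lo, hiX, colB]
  | lR i c =>
    simp only [Par.BV] at hb
    rcases hx with rfl | rfl
    · simp [Par.bp, lo, hiX, colB]
    · exact Q_col P (i + 1) c c hb.2 le_rfl (by omega)
  | lL i c =>
    simp only [Par.BV] at hb
    rcases hx with rfl | rfl
    · simp [Par.bp, lo, hiX, colB]
    · exact Q_col P (i + 1) (c - 1) c hb.2 (by omega) (by omega)
  | uz i c =>
    rcases hx with rfl | rfl <;> simp [Par.bp, Par.bq, lo, hiX, colB]
  | zl i c =>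
    rcases hx with rfl | rfl <;> simp [Par.bp, Par.bq, lo, hiX, colB]
  | qz j =>
    rcases hx with rfl | rfl
    · exact Q_col P j P.m P.m le_rfl le_rfl (by omega)
    · simp [Par.bq, lo, hiX, colB]
  | zo j =>
    rcases hx with rfl | rfl <;> simp [Par.bp, Par.bq, lo, hiX, colB]
  | ch n =>
    rcases hx with rfl | rfl <;> simp [Par.bp, Par.bq, lo, hiX, colB]

/-- The vertices of the gadget present in column `c`. -/
def colF (P : Par) (c : ℕ) : Finset GX :=
  {GX.q 0 0, GX.q P.R 0} ∪ (range (P.R + 1)).image (fun j => GX.q j c) ∪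
    (range (P.R + 1)).image (fun j => GX.q j (c - 1)) ∪
    (range P.R).image (fun i => GX.u i c) ∪ (range P.R).image (fun i => GX.z i c) ∪
    (range P.R).image (fun i => GX.l i c) ∪ (range (P.R + 1)).image GX.zr ∪
    (range (4 * P.R + 1)).image GX.o

theorem card_colF (P : Par) (c : ℕ) : (colF P c).card ≤ 10 * P.R + 6 := by
  unfold colF
  have h (s : Finset ℕ) (f : ℕ → GX) : (s.image f).card ≤ s.card := card_image_le
  refine (card_union_le _ _).trans ?_
  refine (Nat.add_le_add_right (card_union_le _ _) _).trans ?_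
  refine (Nat.add_le_add_right (Nat.add_le_add_right (card_union_le _ _) _) _).trans ?_
  refine (Nat.add_le_add_right (Nat.add_le_add_right (Nat.add_le_add_right
    (card_union_le _ _) _) _) _).trans ?_
  refine (Nat.add_le_add_right (Nat.add_le_add_right (Nat.add_le_add_right (Nat.add_le_add_right
    (card_union_le _ _) _) _) _) _).trans ?_
  refine (Nat.add_le_add_right (Nat.add_le_add_right (Nat.add_le_add_right (Nat.add_le_add_right
    (Nat.add_le_add_right (card_union_le _ _) _) _) _) _) _).trans ?_
  refine (Nat.add_le_add_right (Nat.add_le_add_right (Nat.add_le_add_right (Nat.add_le_add_right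
    (Nat.add_le_add_right (Nat.add_le_add_right (card_union_le _ _) _) _) _) _) _) _).trans ?_
  have h0 : ({GX.q 0 0, GX.q P.R 0} : Finset GX).card ≤ 2 := card_le_two
  have h1 := h (range (P.R + 1)) (fun j => GX.q j c)
  have h2 := h (range (P.R + 1)) (fun j => GX.q j (c - 1))
  have h3 := h (range P.R) (fun i => GX.u i c)
  have h4 := h (range P.R) (fun i => GX.z i c)
  have h5 := h (range P.R) (fun i => GX.l i c)
  have h6 := h (range (P.R + 1)) GX.zr
  have h7 := h (range (4 * P.R + 1)) GX.o
  rw [card_range] at h1 h2 h3 h4 h5 h6 h7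
  omega

theorem mem_colF (P : Par) {x : GX} (hx : P.XV x) {c : ℕ} (h1 : lo P x ≤ c) (h2 : c ≤ hiX P x) :
    x ∈ colF P c := by
  unfold colF
  simp only [mem_union, mem_image, mem_range, mem_insert, mem_singleton]
  cases x with
  | q j d =>
    simp only [Par.XV] at hx
    simp only [lo, hiX] at h1 h2
    split_ifs at h1 h2 with h
    · have := hx.2.2 h
      subst this
      rcases h with rfl | rfl
      · simp
      · simp
    · have : d = c ∨ d = c - 1 := by omega
      rcases this with rfl | rfl
      · left; left; left; left; left; left; right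
        exact ⟨j, by omega, rfl⟩
      · left; left; left; left; left; right
        exact ⟨j, by omega, rfl⟩
  | u i d =>
    simp only [Par.XV] at hx
    simp only [lo, hiX] at h1 h2
    have : d = c := by omega
    subst this
    left; left; left; left; right
    exact ⟨i, hx.1, rfl⟩
  | z i d =>
    simp only [Par.XV] at hx
    simp only [lo, hiX] at h1 h2
    have : d = c := by omega
    subst this
    left; left; left; right
    exact ⟨i, hx.1, rfl⟩
  | l i d =>
    simp only [Par.XV] at hx
    simp only [lo, hiX] at h1 h2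
    have : d = c := by omega
    subst this
    left; left; right
    exact ⟨i, hx.1, rfl⟩
  | zr j =>
    simp only [Par.XV] at hx
    left; right
    exact ⟨j, by omega, rfl⟩
  | o k =>
    simp only [Par.XV] at hx
    right
    exact ⟨k, by omega, rfl⟩

theorem pathwidth_gadget (P : Par) {n : ℕ} (hn : 0 < n) {G : SimpleGraph (Fin n)}
    {φ : Fin n → GX ⊕ (GB × ℕ)} (hM : P.sys.IsModel G φ) : PathwidthLe G (10 * P.R + 6) := by
  classical
  let long : Fin n → Prop := fun v => ∃ x, φ v = Sum.inl x
  let col : Fin n → ℕ := fun v => Sum.elim (lo P) (fun y => colB P y.1) (φ v)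
  let hi : Fin n → ℕ := fun v => Sum.elim (hiX P) (fun y => colB P y.1) (φ v)
  refine pathwidthLe_of_col hn G _ long col hi ?_ ?_ ?_
  · intro v
    simp only [col, hi]
    cases φ v with
    | inl x => exact lo_le_hiX P x
    | inr y => exact le_rfl
  · intro u v huv
    rw [hM.adj] at huv
    have hu := hM.valid u
    have hv := hM.valid v
    simp only [long, col, hi]
    cases hpu : φ u with
    | inl x =>
      cases hpv : φ v with
      | inl y => rw [hpu, hpv] at huv; exact huv.elim
      | inr y =>
        obtain ⟨b, l⟩ := y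
        rw [hpu, hpv] at huv
        rw [hpv] at hv
        have hb : P.BV b := P.mem_bundF.1 hv.1
        left
        refine ⟨⟨x, rfl⟩, ?_⟩
        exact ends_col P hb huv
    | inr y =>
      cases hpv : φ v with
      | inl x =>
        obtain ⟨b, l⟩ := y
        rw [hpu, hpv] at huv
        rw [hpu] at hu
        have hb : P.BV b := P.mem_bundF.1 hu.1
        right
        refine ⟨⟨x, rfl⟩, ?_⟩
        exact ends_col P hb huv
      | inr z => rw [hpu, hpv] at huv; exact huv.elim
  · intro c
    refine le_trans ?_ (card_colF P c)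
    rw [← Set.ncard_coe_finset]
    have : Set.MapsTo (fun v => Sum.elim (fun x => x) (fun _ => GX.zr 0) (φ v))
        {v | long v ∧ col v ≤ c ∧ c ≤ hi v} (colF P c : Set GX) := by
      rintro v ⟨⟨x, hx⟩, h1, h2⟩
      simp only [col, hi, hx, Sum.elim_inl] at h1 h2 ⊢
      have hv := hM.valid v
      rw [hx] at hv
      exact mem_colF P hv h1 h2
    refine Set.ncard_le_ncard_of_injOn _ this ?_ (Finset.finite_toSet _)
    rintro v ⟨⟨x, hx⟩, -⟩ w ⟨⟨y, hy⟩, -⟩ h
    simp only [hx, hy, Sum.elim_inl] at h
    subst h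
    exact hM.inj (hx.trans hy.symm)

end Pool.Agent.R545.Stc
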