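import Mathlib

/-!
# Tree decompositions, treewidth and pathwidth
-/

namespace Pool.Agent.R545.Stc

/-- `(T, B)` is a tree decomposition of `G`: `T` is a tree with nodes `0, ..., m - 1`, every vertex
of `G` is in a bag, every edge of `G` is in a bag, and the nodes whose bags contain a given vertex
induce a connected subgraph of `T`. -/
structure IsTreeDecomp {V : Type} (G : SimpleGraph V) {m : ℕ} (T : SimpleGraph (Fin m))
    (B : Fin m → Finset V) : Prop where
  tree : T.IsTree
  cover : ∀ v, ∃ i, v ∈ B i
  edge : ∀ u v, G.Adj u v → ∃ i, u ∈ B i ∧ v ∈ B i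
  conn : ∀ v, (T.induce {i | v ∈ B i}).Connected

/-- `G` has a tree decomposition in which every bag has at most `w + 1` vertices. -/
def TreewidthLe {V : Type} (G : SimpleGraph V) (w : ℕ) : Prop :=
  ∃ (m : ℕ) (T : SimpleGraph (Fin m)) (B : Fin m → Finset V),
    IsTreeDecomp G T B ∧ ∀ i, (B i).card ≤ w + 1

/-- `G` has a path decomposition in which every bag has at most `w + 1` vertices. -/
def PathwidthLe {V : Type} (G : SimpleGraph V) (w : ℕ) : Prop :=
  ∃ (m : ℕ) (B : Fin m → Finset V),
    IsTreeDecomp G (SimpleGraph.pathGraph m) B ∧ ∀ i, (B i).card ≤ w + 1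

/-- The treewidth of `G`. -/
noncomputable def treewidth {V : Type} (G : SimpleGraph V) : ℕ := sInf {w | TreewidthLe G w}

/-- The pathwidth of `G`. -/
noncomputable def pathwidth {V : Type} (G : SimpleGraph V) : ℕ := sInf {w | PathwidthLe G w}

end Pool.Agent.R545.Stc
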