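import Pool.Agent.H820R2.SC.Defs
import Pool.Agent.R545.Stc.TwDefs

/-!
# Spanning tree congestion parameterized by treewidth: the problems
-/

namespace Pool.Agent.R545.Stc

open Pool.Agent.NPC Pool.Agent.H557R2.Fpt Pool.Agent.H820R2.SC Turing

/-- The spanning tree congestion of `G`: the least congestion of a spanning tree. -/
noncomputable def stc {V : Type} (G : SimpleGraph V) : ℕ := sInf {t | StcLe G t}

/-- The decision version of STC parameterized by treewidth: the pairs `(code of (G, t), k)` such
that `G` is a connected graph of treewidth at most `k` with a spanning tree of congestion at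
most `t`. -/
def stcTwProblem : PProblem :=
  {y | ∃ (n t : ℕ) (G : SimpleGraph (Fin n)), G.Connected ∧ treewidth G ≤ y.2 ∧
    y.1 = bits ((matOf G, t) : List (List Bool) × ℕ) ∧ StcLe G t}

/-- STC is fixed-parameter tractable when parameterized by treewidth: some Turing machine, given
the adjacency matrix of a connected graph `G` on `n` vertices (and nothing else), outputs `stc G`
in `f (treewidth G) * p n` steps, for some computable `f` and some polynomial `p`. -/
def StcTwFpt : Prop :=
  ∃ (M : TM2ComputableAux Bool Bool) (f : ℕ → ℕ) (p : Polynomial ℕ), Computable f ∧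
    ∀ (n : ℕ) (G : SimpleGraph (Fin n)), G.Connected →
      Nonempty (TM2OutputsInTime M.tm ((bits (matOf G)).map M.inputAlphabet.invFun)
        (some ((bits (stc G)).map M.outputAlphabet.invFun)) (f (treewidth G) * p.eval n))

end Pool.Agent.R545.Stc
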