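import Pool.Agent.H820R2.SC.Fin
import Pool.Agent.R545.Stc.Gadget
import Pool.Agent.R545.Stc.Problem

/-!
# `W[1]`-hardness of spanning tree congestion parameterized by treewidth
-/

namespace Pool.Agent.R545.Stc

open Finset Pool.Agent.NPC Pool.Agent.H557R2 Pool.Agent.H557R2.Fpt Turing Pool.Agent.H820R2.SC

/-- Every finite graph has a tree decomposition (so `treewidth` is the true minimum). -/
theorem treewidthLe_treewidth {V : Type} [Finite V] (G : SimpleGraph V) :
    TreewidthLe G (treewidth G) := by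
  classical
  have := Fintype.ofFinite V
  refine Nat.sInf_mem (s := {w | TreewidthLe G w}) ⟨Fintype.card V, 1, SimpleGraph.pathGraph 1,
    fun _ => Finset.univ, ⟨pathGraph_isTree 0, ?_, ?_, ?_⟩, ?_⟩
  · intro v
    exact ⟨0, Finset.mem_univ _⟩
  · intro u v _
    exact ⟨0, Finset.mem_univ _, Finset.mem_univ _⟩
  · intro v
    apply induce_pathGraph_connected
    · simp only [Finset.mem_univ, Set.setOf_true]
      exact Set.ordConnected_univ
    · exact ⟨0, Finset.mem_univ _⟩
  · intro i
    rw [Finset.card_univ]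
    exact Nat.le_succ _

/-- The parameter. -/
noncomputable def par2 (y : List Bool × ℕ) : ℕ := 2 * par' y

theorem par2_le (x : List Bool) (k : ℕ) : par2 (x, k) ≤ 32 * (k + k * k) + 38 := by
  have := par'_le x k
  unfold par2
  omega

/-- The reduction: the data, with the bound for the pathwidth. -/
theorem exists_red2 : ∃ (Mx : List Bool × List Unit → List (List Bool))
    (tt : List Bool × List Unit → ℕ) (pp : List Bool × List Unit → List Unit),
    Poly Mx ∧ Poly tt ∧ Poly pp ∧ ∀ (x : List Bool) (k : ℕ),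
      pp (x, List.replicate k ()) = List.replicate (par2 (x, k)) () ∧
      ∃ (n : ℕ) (G : SimpleGraph (Fin n)), Mx (x, List.replicate k ()) = matOf G ∧
        G.Connected ∧ IsKOuterplanar (par' (x, k)) G ∧ PathwidthLe G (par2 (x, k)) ∧
        (StcLe G (tt (x, List.replicate k ())) ↔ (x, k) ∈ pClique) := by
  obtain ⟨F, hF, hF'⟩ := poly_inst
  obtain ⟨N, hN, hN'⟩ := tOf_inst_le
  let I : List Bool × List Unit → List ℕ × List ℕ := fun y =>
    (Mve.findn y.1).elim ([2], [1]) fun n => F (n, y.1, y.2)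
  have hI : Poly I := Poly.optElim (Mve.poly_findn.comp (Poly.fst Poly.id)) (NPC.Poly.const _)
    (hF.comp (Poly.pair (Poly.snd Poly.id) (Poly.pair (Poly.fst (Poly.fst Poly.id))
      (Poly.snd (Poly.fst Poly.id)))))
  have hIe : ∀ x k, I (x, List.replicate k ()) = inst' (x, k) := by
    intro x k
    simp only [I, inst']
    cases h : Mve.findn x with
    | none => rfl
    | some n => exact hF' n k x (Mve.findn_some h)
  have htOf : Poly (fun y => tOf (I y).1 (I y).2) := by
    unfold tOf
    fun_prop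
  let NN : List Bool × List Unit → ℕ := fun y =>
    (Mve.findn y.1).elim (tOf [2] [1]) fun n => N (n, y.1, y.2)
  have hNN : UPoly NN := by
    have h1 : Poly (fun y : List Bool × List Unit => (Mve.findn y.1).elim
        (List.replicate (tOf [2] [1]) ()) fun n => List.replicate (N (n, y.1, y.2)) ()) :=
      Poly.optElim (Mve.poly_findn.comp (Poly.fst Poly.id)) (NPC.Poly.const _)
        (Poly.comp hN (Poly.pair (Poly.snd Poly.id) (Poly.pair (Poly.fst (Poly.fst Poly.id))
          (Poly.snd (Poly.fst Poly.id)))))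
    refine h1.congr fun y => ?_
    simp only [NN]
    cases Mve.findn y.1 <;> rfl
  have hNNe : ∀ x k, tOf (inst' (x, k)).1 (inst' (x, k)).2 ≤ NN (x, List.replicate k ()) := by
    intro x k
    simp only [NN, inst']
    cases h : Mve.findn x with
    | none => exact le_rfl
    | some n => exact hN' n k x (Mve.findn_some h)
  have hpp : UPoly (fun y => 2 * (16 * (I y).2.length + 3)) :=
    (UPoly.const 2).mul
      (((UPoly.const 16).mul (UPoly.length (Poly.snd hI))).add (UPoly.const 3))
  refine ⟨fun y => mtx (NN y) (I y).1 (I y).2, fun y => tOf (I y).1 (I y).2,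
    fun y => List.replicate (2 * (16 * (I y).2.length + 3)) (),
    poly_mtx (Poly.fst hI) (Poly.snd hI) hNN, htOf, hpp, fun x k => ⟨?_, ?_⟩⟩
  · simp only [hIe, par', par2]
  · simp only [hIe]
    have hA := adm_inst' (x, k)
    obtain ⟨G, hG1, hG2⟩ := model_mtx hA (hNNe x k)
    have hconn := connected_model hG2 (verts_nonempty _) (conn_gadget _)
    have e : 8 * (parOf _ _ hA).R + 3 = par' (x, k) := by
      unfold Par.R parOf par'
      simp only
      ring
    refine ⟨_, G, hG1.symm, hconn, ?_, ?_, ?_⟩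
    · have h1 := kouter_gadget _ hG2
      rwa [e] at h1
    · have h0 : 0 < _ := Fin.pos (Classical.choice hconn.nonempty)
      obtain ⟨m, B, h1, h2⟩ := pathwidth_gadget _ h0 hG2
      refine ⟨m, B, h1, fun i => (h2 i).trans ?_⟩
      unfold par2
      omega
    · rw [← packL_inst', ← pack_parOf hA, ← t_parOf _ _ hA]
      exact stcLe_iff _ hG2

theorem mem_stcTwProblem {n t k : ℕ} {G : SimpleGraph (Fin n)} (hc : G.Connected)
    (ho : treewidth G ≤ k) :
    ((bits ((matOf G, t) : List (List Bool) × ℕ), k) : List Bool × ℕ) ∈ stcTwProblem ↔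
      StcLe G t := by
  constructor
  · rintro ⟨n', t', G', h1, h2, h3, h4⟩
    have h5 := bits_injective h3
    simp only [Prod.mk.injEq] at h5
    obtain ⟨h5, rfl⟩ := h5
    obtain ⟨e, h6⟩ := matOf_injective h5
    subst e
    simp only at h6
    subst h6
    exact h4
  · intro h
    exact ⟨n, t, G, hc, ho, rfl, h⟩

theorem computable_g2 : Computable fun k : ℕ => 32 * (k + k * k) + 38 :=
  comp_add (comp_mul (Computable.const 32) (comp_add Computable.id
    (comp_mul Computable.id Computable.id))) (Computable.const 38)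

theorem monotone_g2 : Monotone fun k : ℕ => 32 * (k + k * k) + 38 := fun a b h => by
  have h1 : a * a ≤ b * b := Nat.mul_le_mul h h
  simp only
  omega

theorem exists_reduction2 : ∃ R : List Bool × ℕ → List Bool × ℕ, PC pcode pcode R ∧
    (∀ x k, (R (x, k)).2 ≤ 32 * (k + k * k) + 38) ∧ ∀ x k, ∃ (n t : ℕ) (G : SimpleGraph (Fin n)),
      G.Connected ∧ (∃ j ≤ (R (x, k)).2, IsKOuterplanar j G) ∧ PathwidthLe G (R (x, k)).2 ∧
      (R (x, k)).1 = bits ((matOf G, t) : List (List Bool) × ℕ) ∧
      ((x, k) ∈ pClique ↔ StcLe G t) := by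
  obtain ⟨Mx, tt, pp, hM, ht, hp, h⟩ := exists_red2
  let R : List Bool × ℕ → List Bool × ℕ := fun y =>
    (bits ((Mx (y.1, List.replicate y.2 ()), tt (y.1, List.replicate y.2 ())) :
      List (List Bool) × ℕ), par2 y)
  have h1 : PC (bits : List Bool × List Unit → List Bool)
      (bits : List Bool × List Unit → List Bool)
      (fun y => (bits ((Mx y, tt y) : List (List Bool) × ℕ), pp y)) :=
    Poly.pair (Mve.poly_bits (Poly.pair hM ht)) hp
  refine ⟨R, ?_, fun x k => par2_le x k, fun x k => ?_⟩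
  · obtain ⟨c, p, h2⟩ := h1
    refine ⟨c, p, fun y => ?_⟩
    have h3 := h2 (y.1, List.replicate y.2 ())
    have e : pcode (R y) = bits (((bits ((Mx (y.1, List.replicate y.2 ()),
        tt (y.1, List.replicate y.2 ())) : List (List Bool) × ℕ),
        pp (y.1, List.replicate y.2 ())) : List Bool × List Unit)) := by
      unfold pcode
      rw [(h y.1 y.2).1]
    rw [e]
    exact h3
  · obtain ⟨-, n, G, h2, h3, h4, h6, h5⟩ := h x k
    refine ⟨n, tt (x, List.replicate k ()), G, h3, ⟨_, ?_, h4⟩, h6, by simp only [R, h2], h5.symm⟩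
    change par' (x, k) ≤ 2 * par' (x, k)
    omega

theorem exists_fpt_reduction2 : ∃ R : List Bool × ℕ → List Bool × ℕ, FptComputable R ∧
    (∀ x k, (R (x, k)).2 ≤ 32 * (k + k * k) + 38) ∧
    ∀ x k, ∃ (n t : ℕ) (G : SimpleGraph (Fin n)), G.Connected ∧
      (∃ j ≤ (R (x, k)).2, IsKOuterplanar j G) ∧ PathwidthLe G (R (x, k)).2 ∧
      (R (x, k)).1 = bits ((matOf G, t) : List (List Bool) × ℕ) ∧
      ((x, k) ∈ pClique ↔ StcLe G t) := by
  obtain ⟨R, h1, h2, h3⟩ := exists_reduction2
  exact ⟨R, fptComputable_of_pc h1, h2, h3⟩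

theorem w1Hard_stcTw : W1Hard stcTwProblem := by
  obtain ⟨R, hR, hle, h⟩ := exists_reduction2
  refine w1Hard_of hR computable_g2 monotone_g2 hle fun x k => ?_
  obtain ⟨n, t, G, h1, -, h2, h3, h4⟩ := h x k
  rw [h4]
  have e : R (x, k) = (bits ((matOf G, t) : List (List Bool) × ℕ), (R (x, k)).2) :=
    Prod.ext h3 rfl
  rw [e]
  exact (mem_stcTwProblem h1 (treewidth_le_of h2.treewidthLe)).symm

theorem stc_le_iff {n : ℕ} {G : SimpleGraph (Fin n)} (hG : G.Connected) (t : ℕ) :
    stc G ≤ t ↔ StcLe G t := by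
  constructor
  · intro h
    obtain ⟨T, hT, hT'⟩ := hG.exists_isTree_le
    have h1 : StcLe G (stc G) := Nat.sInf_mem (s := {t | StcLe G t}) ⟨ec G T, T, hT, hT', le_rfl⟩
    obtain ⟨T', h2, h3, h4⟩ := h1
    exact ⟨T', h2, h3, h4.trans h⟩
  · intro h
    exact Nat.sInf_le h

/-- An fpt algorithm for STC parameterized by treewidth puts all of `W[1]` in `FPT`. -/
theorem tw_fpt_imp (h : StcTwFpt) : ∀ L ∈ W1, FptDecidable L := by
  obtain ⟨M, f, p, hf, hM⟩ := h
  rintro L ⟨R1, hR1, ⟨g, hg, hgle⟩, hiff⟩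
  obtain ⟨Mx, tt, pp, hMx, htt, hpp, hred⟩ := exists_red2
  have h0 := hR1.toFT
  have h1 : FT (bits : List Bool × List Unit → List Bool)
      (fun y => ((R1 y).1, List.replicate (R1 y).2 ())) := h0
  let Y : List Bool × ℕ → List Bool × List Unit := fun y => ((R1 y).1, List.replicate (R1 y).2 ())
  have h2 : FT (bits : List (List Bool) → List Bool) (fun y => Mx (Y y)) := h1.comp hMx
  have h3 : ∀ y : List Bool × ℕ, ∃ (v s : ℕ), s ≤ par2 (R1 y) ∧
      Nonempty (TM2OutputsInTime M.tm
        ((bits (Mx (Y y))).map M.inputAlphabet.invFun)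
        (some ((bits v).map M.outputAlphabet.invFun))
        (f s * p.eval (bits (Mx (Y y))).length)) ∧
      (v ≤ tt (Y y) ↔ R1 y ∈ pClique) := by
    intro y
    obtain ⟨e1, n, G, e2, hc, -, ho, e3⟩ := hred (R1 y).1 (R1 y).2
    have hT4 := hM n G hc
    refine ⟨stc G, treewidth G, treewidth_le_of ho.treewidthLe, ?_, ?_⟩
    · have e7 : Mx (Y y) = matOf G := e2
      rw [e7]
      refine outputs_mono (Nat.mul_le_mul_left _ (eval_mono p ?_)) hT4
      have e5 : (matOf G).length = n := by simp [matOf]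
      have e8 := length_lt_sz (matOf G)
      rw [bits_length]
      omega
    · have e8 : (StcLe G (tt (Y y)) ↔ R1 y ∈ pClique) := e3
      rw [← e8]
      exact stc_le_iff hc _
  choose v s hs hv1 hv2 using h3
  have h4 : FT (bits : ℕ → List Bool) v :=
    FT_machine h2 hf (fun x k => hv1 (x, k))
      (s := fun x k => s (x, k))
      (g := fun k => 32 * ((g k) + (g k) * (g k)) + 38)
      (computable_g2.comp hg)
      (fun x k => (hs (x, k)).trans ((par2_le _ _).trans (monotone_g2 (hgle x k))))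
  have h6 : FT (bits : ℕ → List Bool) (fun y => tt (Y y)) := h1.comp htt
  have h7 : FT (bits : Bool → List Bool) (fun y => decide (v y ≤ tt (Y y))) :=
    (FT.pair h4 h6).comp (Poly.decide_le (Poly.fst Poly.id) (Poly.snd Poly.id))
  refine FT.fptDecidable h7 fun y => (hiff y.1 y.2).trans ?_
  rw [decide_eq_true_iff]
  exact (hv2 y).symm

end Pool.Agent.R545.Stc
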